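import Pool.Agent.Helper6.LPA.St

/-!
# Project LPA, module GGL: the mean values of the weights
-/

set_option autoImplicit false

noncomputable section

namespace Pool.Agent.Helper41.LPA

open Finset
open Pool.Agent.Helper60.LZ (js)
open Pool.Agent.Helper98.LM (QQ)
open Pool.Agent.Helper6.LP
open Pool.Agent.Helper6.LPA

private theorem js_le (t l : ℕ) : js t l ≤ 1 := by
  unfold js
  rcases jacobiSym.trichotomy ((t : ℤ) ^ 2 - 4) l with h | h | h <;> rw [h] <;> norm_num

private theorem memQ {z w l : ℕ} (h : l ∈ QQ z w) : l.Prime ∧ z < l ∧ l ≤ w := by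
  unfold QQ at h
  rw [mem_filter, mem_Ioc] at h
  exact ⟨h.2, h.1.1, h.1.2⟩

/-- the local densities -/
private theorem dens (hL : StLOP) {p P a y l : ℕ} (hp : 24 ≤ p)
    (hP : ∀ l : ℕ, l.Prime → l ∣ P → l ≤ p) (hy : 2 ≤ y) (hl : l.Prime) (hpl : p < l) :
    0 ≤ ((SS P a y l).card : ℝ) / l ∧ ((SS P a y l).card : ℝ) / l ≤ 3 / l ∧
      ((SS P a y l).card : ℝ) / l ≤ 1 / 2 ∧ (3 : ℝ) / l < 1 := by
  have hlP : ¬ l ∣ P := fun h => absurd (hP l hl h) (by omega)
  have hc := (hL P a l hl (by omega) hlP).1 y hy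
  have hj := js_le (y - 2) l
  have hl25 : (24 : ℝ) < l := by exact_mod_cast (by omega : 24 < l)
  have hl0 : (0 : ℝ) < l := by linarith
  have h3 : ((SS P a y l).card : ℝ) / l ≤ 3 / l :=
    div_le_div_of_nonneg_right (by linarith) hl0.le
  have h4 : (3 : ℝ) / l ≤ 1 / 2 := by
    rw [div_le_iff₀ hl0]
    linarith
  exact ⟨by positivity, h3, h3.trans h4, by linarith⟩

/-- GGL. -/
theorem hGGL (hM : StMAS) (hL : StLOP) (hC : StCMB) : StGGL := by
  classical
  obtain ⟨C₀, hC₀, hM⟩ := hM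
  refine ⟨9 * C₀ ^ 2, by nlinarith, ?_⟩
  intro p P a z w B B₁ F hp hpz hzw hB hw hP hF
  obtain ⟨hF1, -, -, hF4⟩ := hF
  obtain ⟨m1, m2, m3⟩ := hM z w B (hp.trans hpz) hzw hB hw
  have hB1 : (1 : ℝ) ≤ B := by exact_mod_cast hB
  have hFQ : ∀ T ∈ F, T ⊆ QQ z w := fun T hT => (hF1 T hT).1
  have hd : ∀ y : ℕ, 2 ≤ y → ∀ l ∈ QQ z w, 0 ≤ ((SS P a y l).card : ℝ) / l ∧
      ((SS P a y l).card : ℝ) / l ≤ 3 / l ∧ ((SS P a y l).card : ℝ) / l ≤ 1 / 2 ∧
      (3 : ℝ) / l < 1 := by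
    intro y hy l hl
    obtain ⟨q1, q2, -⟩ := memQ hl
    exact dens hL hp hP hy q1 (by omega)
  have hp3 : ∀ y : ℕ, 2 ≤ y → ∏ l ∈ QQ z w, (1 + ((SS P a y l).card : ℝ) / l) ≤ C₀ * (B : ℝ) ^ 3 := by
    intro y hy
    refine le_trans (prod_le_prod (fun l hl => ?_) fun l hl => ?_) m1
    · have := (hd y hy l hl).1
      linarith
    · have := (hd y hy l hl).2.1
      linarith
  have hC1 : C₀ ≤ 9 * C₀ ^ 2 := by nlinarith
  have hC2 : 2 * C₀ ≤ 9 * C₀ ^ 2 := by nlinarith
  refine ⟨fun y hy => ?_, fun y y' hy hy' => ?_⟩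
  · have hG : (1 / 2) * ∏ l ∈ QQ z w, (1 - ((SS P a y l).card : ℝ) / l) ≤ GG F P a y :=
      hF4 (fun l => ((SS P a y l).card : ℝ) / l) (fun l hl =>
        ⟨(hd y hy l hl).1, (hd y hy l hl).2.1, (hd y hy l hl).2.2.1⟩)
    have hV : 0 < VV p z P a y := by
      unfold VV
      refine prod_pos fun l hl => ?_
      obtain ⟨q1, q2, -⟩ := memQ hl
      have h := dens hL (a := a) hp hP hy q1 q2
      linarith [h.2.2.1]
    have hcmb := hC (QQ z w) F (fun l => ((SS P a y l).card : ℝ) / l)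
      (fun l => ((SS P a y l).card : ℝ) / l) (fun l hl => ⟨(hd y hy l hl).1, (hd y hy l hl).1⟩) hFQ
    refine ⟨hV, ?_, ?_, ?_, ?_, ?_⟩
    · have h1 : ∏ l ∈ QQ z w, (1 - 3 / (l : ℝ)) ≤
          ∏ l ∈ QQ z w, (1 - ((SS P a y l).card : ℝ) / l) := by
        refine prod_le_prod (fun l hl => ?_) fun l hl => ?_
        · have := (hd y hy l hl).2.2.2
          linarith
        · have := (hd y hy l hl).2.1
          linarith
      obtain ⟨X, hX⟩ : ∃ X : ℝ, X = ∏ l ∈ QQ z w, (1 - 3 / (l : ℝ)) := ⟨_, rfl⟩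
      rw [← hX] at h1 m3
      have h2 : X / 2 ≤ GG F P a y := by linarith
      have h3 : 0 < (B : ℝ) ^ 3 := by positivity
      have hX0 : 0 < X := by
        rw [hX]
        refine prod_pos fun l hl => ?_
        have := (hd y hy l hl).2.2.2
        linarith
      calc (1 : ℝ) ≤ C₀ * (B : ℝ) ^ 3 * X := m3
        _ = 2 * C₀ * (B : ℝ) ^ 3 * (X / 2) := by ring
        _ ≤ 9 * C₀ ^ 2 * (B : ℝ) ^ 3 * (X / 2) := by
            apply mul_le_mul_of_nonneg_right _ (by positivity)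
            exact mul_le_mul_of_nonneg_right hC2 h3.le
        _ ≤ 9 * C₀ ^ 2 * (B : ℝ) ^ 3 * GG F P a y :=
            mul_le_mul_of_nonneg_left h2 (by positivity)
    · have e : VV p w P a y = VV p z P a y * ∏ l ∈ QQ z w, (1 - ((SS P a y l).card : ℝ) / l) := by
        unfold VV
        rw [← prod_union]
        · congr 1
          ext l
          unfold QQ
          simp only [mem_union, mem_filter, mem_Ioc]
          constructor
          · rintro ⟨⟨h1, h2⟩, h3⟩
            by_cases h4 : l ≤ z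
            · exact Or.inl ⟨⟨h1, h4⟩, h3⟩
            · exact Or.inr ⟨⟨by omega, h2⟩, h3⟩
          · rintro (⟨⟨h1, h2⟩, h3⟩ | ⟨⟨h1, h2⟩, h3⟩)
            · exact ⟨⟨h1, by omega⟩, h3⟩
            · exact ⟨⟨by omega, h2⟩, h3⟩
        · rw [disjoint_left]
          intro l h1 h2
          have h3 := (memQ h1).2.2
          have h4 := (memQ h2).2.1
          omega
      rw [e]
      unfold VW
      have h1 := mul_le_mul_of_nonneg_left hG hV.le
      linarith
    · intro T hT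
      unfold gg
      exact prod_nonneg fun l _ => by positivity
    · refine (hcmb.1.trans (hp3 y hy)).trans ?_
      exact mul_le_mul_of_nonneg_right hC1 (by positivity)
    · refine (hcmb.2.1.trans ?_).trans (m2.trans ?_)
      · refine prod_le_prod (fun l hl => ?_) fun l hl => ?_
        · have := (hd y hy l hl).1
          linarith
        · have := (hd y hy l hl).2.1
          have e : (12 : ℝ) / l = 4 * (3 / l) := by ring
          rw [e]
          linarith
      · exact mul_le_mul_of_nonneg_right hC1 (by positivity)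
  · have hcmb := (hC (QQ z w) F (fun l => ((SS P a y l).card : ℝ) / l)
      (fun l => ((SS P a y' l).card : ℝ) / l)
      (fun l hl => ⟨(hd y hy l hl).1, (hd y' hy' l hl).1⟩) hFQ).2.2
    have hz0 : (0 : ℝ) < z := by exact_mod_cast (by omega : 0 < z)
    have hs : ∑ l ∈ QQ z w, ((SS P a y l).card : ℝ) / l * (((SS P a y' l).card : ℝ) / l) ≤ 9 / z := by
      have h1 : ∀ l ∈ QQ z w, ((SS P a y l).card : ℝ) / l * (((SS P a y' l).card : ℝ) / l) ≤
          9 * ((l : ℝ) ^ 2)⁻¹ := by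
        intro l hl
        have g1 := hd y hy l hl
        have g2 := hd y' hy' l hl
        calc ((SS P a y l).card : ℝ) / l * (((SS P a y' l).card : ℝ) / l) ≤ 3 / l * (3 / l) :=
              mul_le_mul g1.2.1 g2.2.1 g2.1 (by positivity)
          _ = 9 * ((l : ℝ) ^ 2)⁻¹ := by
              rw [div_mul_div_comm]
              ring
      calc _ ≤ ∑ l ∈ QQ z w, 9 * ((l : ℝ) ^ 2)⁻¹ := sum_le_sum h1
        _ ≤ ∑ l ∈ Ioc z w, 9 * ((l : ℝ) ^ 2)⁻¹ := by
            unfold QQ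
            exact sum_le_sum_of_subset_of_nonneg (filter_subset _ _) fun l _ _ => by positivity
        _ = 9 * ∑ l ∈ Ioc z w, ((l : ℝ) ^ 2)⁻¹ := by rw [mul_sum]
        _ ≤ 9 * ((z : ℝ)⁻¹ - (w : ℝ)⁻¹) :=
            mul_le_mul_of_nonneg_left (sum_Ioc_inv_sq_le_sub (by omega) hzw) (by norm_num)
        _ ≤ 9 / z := by
            have : 0 ≤ (w : ℝ)⁻¹ := by positivity
            rw [div_eq_mul_inv]
            linarith
    refine hcmb.trans ?_
    have h3 : 0 ≤ ∏ l ∈ QQ z w, (1 + ((SS P a y' l).card : ℝ) / l) :=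
      prod_nonneg fun l hl => by
        have := (hd y' hy' l hl).1
        linarith
    have h4 : 0 ≤ ∏ l ∈ QQ z w, (1 + ((SS P a y l).card : ℝ) / l) :=
      prod_nonneg fun l hl => by
        have := (hd y hy l hl).1
        linarith
    calc _ ≤ 9 / z * ((C₀ * (B : ℝ) ^ 3) * (C₀ * (B : ℝ) ^ 3)) :=
          mul_le_mul hs (mul_le_mul (hp3 y hy) (hp3 y' hy') h3 (by positivity))
            (mul_nonneg h4 h3) (by positivity)
      _ = 9 * C₀ ^ 2 * (B : ℝ) ^ 6 / z := by ring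

end Pool.Agent.Helper41.LPA
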